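import Pool.Agent.helper2.BB.Spec
import Pool.Agent.helper37.PR.Lower

set_option autoImplicit false

namespace BB

open Metric MeasureTheory Set Filter Topology Asymptotics
open Pool.Agent.helper37.PR

variable {E : Type} [NormedAddCommGroup E] [InnerProductSpace ℂ E]

theorem B5_inner_lt (u z : E) (hu : ‖u‖ = 1) (hz : ‖z‖ < 1) : ‖(inner ℂ u z : ℂ)‖ < 1 :=
  (norm_inner_le_norm u z).trans_lt (by rw [hu, one_mul]; exact hz)

theorem B5_in (u z : E) : AnalyticAt ℂ (fun z : E => (inner ℂ u z : ℂ)) z :=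
  (innerSL ℂ u).analyticAt z

theorem B5_analytic (hA4 : A4_stmt) (ε : Bool) (u : E) (q : ℝ) (hu : ‖u‖ = 1) (hq : 0 < q) (hq1 : q ≤ 1) :
    AnalyticOnNhd ℂ (VV ε u q) (ball 0 1) := by
  obtain ⟨-, -, -, hsc, hrho⟩ := hA4 q hq hq1
  intro z hz
  rw [mem_ball_zero_iff] at hz
  have hw : (inner ℂ u z : ℂ) ∈ ball (0 : ℂ) 1 := by
    rw [mem_ball_zero_iff]
    exact B5_inner_lt u z hu hz
  have hin := B5_in u z
  have h1 : AnalyticAt ℂ (fun z : E => sc q (inner ℂ u z)) z :=
    AnalyticAt.comp (g := sc q) (f := fun z : E => (inner ℂ u z : ℂ)) (hsc _ hw) hin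
  have h2 : AnalyticAt ℂ (fun z : E => rho ε q (inner ℂ u z)) z :=
    AnalyticAt.comp (g := rho ε q) (f := fun z : E => (inner ℂ u z : ℂ)) (hrho ε _ hw) hin
  exact h1.smul ((hin.smul analyticAt_const).add (h2.smul (analyticAt_id.sub
    (hin.smul analyticAt_const))))

theorem B5_zero (ε : Bool) (u : E) (q : ℝ) : VV ε u q 0 = 0 := by
  simp [VV]

theorem B5_rho (hA2 : A2_stmt) (ε : Bool) (q : ℝ) (hq : 0 < q) (hq1 : q ≤ 1) : rho ε q 0 = 1 := by
  obtain ⟨-, -, -, -, -, -, -, -, h1, h2, -, -⟩ := hA2 q 0 hq hq1 (by simp)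
  cases ε
  · rfl
  · simp [rho, h1, h2]

theorem B5_fderiv (hA2 : A2_stmt) (hA4 : A4_stmt) (ε : Bool) (u : E) (q : ℝ) (hq : 0 < q)
    (hq1 : q ≤ 1) : HasFDerivAt (VV ε u q) ((q : ℂ) • ContinuousLinearMap.id ℂ E) 0 := by
  obtain ⟨-, -, -, hsc, hrho⟩ := hA4 q hq hq1
  have h00 : (inner ℂ u (0 : E) : ℂ) = 0 := inner_zero_right u
  have hmem : (0 : ℂ) ∈ ball (0 : ℂ) 1 := by simp
  have hin := B5_in u (0 : E)
  have h1 : AnalyticAt ℂ (fun z : E => sc q (inner ℂ u z)) 0 :=
    AnalyticAt.comp (g := sc q) (f := fun z : E => (inner ℂ u z : ℂ)) (hsc _ (by rw [h00]; exact hmem)) hin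
  have h2 : AnalyticAt ℂ (fun z : E => rho ε q (inner ℂ u z)) 0 :=
    AnalyticAt.comp (g := rho ε q) (f := fun z : E => (inner ℂ u z : ℂ)) (hrho ε _ (by rw [h00]; exact hmem)) hin
  set L1 : E →L[ℂ] E := (innerSL ℂ u).smulRight u with hL1
  set L2 : E →L[ℂ] E := ContinuousLinearMap.id ℂ E - L1 with hL2
  have hr : HasFDerivAt (fun z : E => rho ε q (inner ℂ u z)) (fderiv ℂ (fun z : E => rho ε q (inner ℂ u z)) 0) 0 :=
    h2.differentiableAt.hasFDerivAt
  have hs : HasFDerivAt (fun z : E => sc q (inner ℂ u z)) (fderiv ℂ (fun z : E => sc q (inner ℂ u z)) 0) 0 :=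
    h1.differentiableAt.hasFDerivAt
  have hg := (L1.hasFDerivAt (x := (0 : E))).fun_add (hr.fun_smul (L2.hasFDerivAt (x := (0 : E))))
  have hV := hs.fun_smul hg
  have hq0 : sc q 0 = q := by
    obtain ⟨-, -, -, -, -, -, -, h3, -, -, -, -⟩ := hA2 q 0 hq hq1 (by simp)
    exact h3
  have he : (fun z : E => sc q (inner ℂ u z) • (L1 z + rho ε q (inner ℂ u z) • L2 z)) = VV ε u q := by
    funext z
    simp [VV, hL1, hL2]
  rw [he] at hV
  convert hV using 1
  rw [h00, hq0, B5_rho hA2 ε q hq hq1]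
  ext z
  simp [hL2]

/-- the exponential -/
theorem B5_exp [CompleteSpace E] (t : ℝ) (x : E) :
    (NormedSpace.exp ((t : ℂ) • (ContinuousLinearMap.id ℂ E))) x = (Real.exp t : ℂ) • x := by
  have h := exp_eigen (ContinuousLinearMap.id ℂ E) (x := x) (lam := 1) (by simp) t
  rw [h, mul_one, Complex.ofReal_exp]

theorem B5_ae (T : ℝ) {p : ℝ → Prop} (h : ∀ᵐ t : ℝ, p t) : ∀ᵐ t : ℝ, p (t - T) :=
  (measurePreserving_sub_right volume T).quasiMeasurePreserving.ae h

/-- absolute continuity of the explicit flow -/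
theorem B5_ac [CompleteSpace E] (hB1 : B1_stmt) (hB2 : B2_stmt) (hB3 : B3_stmt) (ε : Bool) (u z : E)
    (hu : ‖u‖ = 1) (hz : ‖z‖ < 1) (T : ℝ) (hT : 0 ≤ T) :
    AbsolutelyContinuousOnInterval (fun τ : ℝ => VV ε u (Real.exp (-τ)) z) 0 T := by
  have hd := (hB2 E ε u z hu hz).2
  have hC := hB1 E ε u hu
  have hcont : ContinuousOn (fun τ : ℝ => ‖hf ε u (VV ε u (Real.exp (-τ)) z)‖) (Icc 0 T) := by
    intro t ht
    refine ContinuousWithinAt.norm ?_
    refine ContinuousAt.comp_continuousWithinAt (g := hf ε u)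
      (f := fun τ : ℝ => VV ε u (Real.exp (-τ)) z) ?_ (hd t ht.1).continuousAt.continuousWithinAt
    refine (hC.an _ ?_).continuousAt
    rw [mem_ball_zero_iff]
    exact (hB3 E ε u z t hu hz ht.1).trans_lt hz
  obtain ⟨C, hCb⟩ := isCompact_Icc.exists_bound_of_continuousOn hcont
  have hlip : LipschitzOnWith (Real.toNNReal C) (fun τ : ℝ => VV ε u (Real.exp (-τ)) z) (uIcc 0 T) := by
    rw [uIcc_of_le hT]
    refine (convex_Icc 0 T).lipschitzOnWith_of_nnnorm_hasDerivWithin_le
      (fun t ht => (hd t ht.1).hasDerivWithinAt) ?_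
    intro t ht
    rw [← NNReal.coe_le_coe, coe_nnnorm, norm_neg]
    have h1 := hCb t ht
    rw [norm_norm] at h1
    exact h1.trans (Real.le_coe_toNNReal C)
  exact hlip.absolutelyContinuousOnInterval

theorem B5 (hA2 : A2_stmt) (hA4 : A4_stmt) (hB1 : B1_stmt) (hB2 : B2_stmt) (hB3 : B3_stmt)
    (hB5a : B5a_stmt) : B5_stmt := by
  intro E _ _ _ _ ε u q f hu hq hq1 hf
  obtain ⟨hfan, hf0, hfd, h, v, hH, hL, hlim⟩ := hf
  set T : ℝ := -Real.log q with hTdef
  have hT : 0 ≤ T := by
    rw [hTdef]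
    linarith [Real.log_nonpos hq.le hq1]
  have hqT : Real.exp (-T) = q := by
    rw [hTdef, neg_neg, Real.exp_log hq]
  have hVan := B5_analytic hA4 ε u q hu hq hq1
  have hVball : ∀ z ∈ ball (0 : E) 1, VV ε u q z ∈ ball (0 : E) 1 := by
    intro z hz
    rw [mem_ball_zero_iff] at hz ⊢
    rw [← hqT]
    exact (hB3 E ε u z T hu hz hT).trans_lt hz
  have hC1 := hB1 E ε u hu
  refine ⟨?_, ?_, ?_, ?_⟩
  · intro z hz
    exact analyticAt_const.smul (AnalyticAt.comp (g := f) (f := VV ε u q) (hfan _ (hVball z hz)) (hVan z hz))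
  · simp [B5_zero, hf0]
  · have h1 : HasFDerivAt f (ContinuousLinearMap.id ℂ E) (VV ε u q 0) := by
      rw [B5_zero, ← hfd]
      exact (hfan 0 (by simp)).differentiableAt.hasFDerivAt
    have h2 := (h1.comp (0 : E) (B5_fderiv hA2 hA4 ε u q hq hq1)).const_smul ((q : ℂ)⁻¹)
    have h3 := h2.fderiv
    have hq0 : (q : ℂ) ≠ 0 := by exact_mod_cast hq.ne'
    have h4 : fderiv ℂ (fun z => (q : ℂ)⁻¹ • f (VV ε u q z)) 0 =
        (q : ℂ)⁻¹ • (ContinuousLinearMap.id ℂ E).comp ((q : ℂ) • ContinuousLinearMap.id ℂ E) := h3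
    rw [h4]
    ext z
    show (q : ℂ)⁻¹ • ((q : ℂ) • z) = z
    rw [smul_smul, inv_mul_cancel₀ hq0, one_smul]
  · refine ⟨fun z t => if t < T then BB.hf ε u z else h z (t - T),
      fun z t => if t ≤ T then VV ε u (Real.exp (-t)) z else v (VV ε u q z) (t - T), ?_, ?_, ?_⟩
    · -- Herglotz
      refine ⟨?_, ?_⟩
      · filter_upwards [B5_ae T hH.cara] with t ht ht0
        by_cases htT : t < T
        · simp only [if_pos htT]
          exact hC1
        · simp only [if_neg htT]
          exact ht (by linarith)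
      · intro z hz
        obtain ⟨g, hg, hgz⟩ := hH.meas z hz
        refine ⟨fun t => if t < T then BB.hf ε u z else g (t - T), ?_, ?_⟩
        · exact StronglyMeasurable.ite measurableSet_Iio stronglyMeasurable_const
            (hg.comp_measurable (measurable_id.sub_const T))
        · have h1 : ∀ᵐ s : ℝ, s ∈ Ici (0 : ℝ) → h z s = g s :=
            (ae_restrict_iff' measurableSet_Ici).1 hgz
          have h2 := B5_ae T h1
          refine (ae_restrict_iff' measurableSet_Ici).2 ?_
          filter_upwards [h2] with t ht _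
          by_cases htT : t < T
          · simp only [if_pos htT]
          · simp only [if_neg htT]
            exact ht (by rw [mem_Ici]; linarith)
    · -- Loewner
      refine ⟨?_, ?_, ?_, ?_⟩
      · intro z hz t ht
        by_cases htT : t ≤ T
        · simp only [if_pos htT]
          rw [mem_ball_zero_iff] at hz ⊢
          exact (hB3 E ε u z t hu hz ht).trans_lt hz
        · simp only [if_neg htT]
          exact hL.mem _ (hVball z hz) _ (by linarith)
      · intro z hz
        simp only [if_pos hT]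
        rw [neg_zero, Real.exp_zero]
        exact (hB2 E ε u z hu (by rwa [mem_ball_zero_iff] at hz)).1
      · intro z hz T0 hT0
        have hz' : ‖z‖ < 1 := by rwa [mem_ball_zero_iff] at hz
        have h1 := hB5a E (fun τ : ℝ => VV ε u (Real.exp (-τ)) z) (v (VV ε u q z)) T (max T T0) hT
          (le_max_left _ _) (B5_ac hB1 hB2 hB3 ε u z hu hz' T hT)
          (hL.ac _ (hVball z hz) _ (sub_nonneg.2 (le_max_left _ _)))
          (by
            show VV ε u (Real.exp (-T)) z = v (VV ε u q z) 0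
            rw [hqT, hL.init _ (hVball z hz)])
        refine h1.mono ?_
        rw [uIcc_of_le hT0, uIcc_of_le (hT.trans (le_max_left _ _))]
        exact Icc_subset_Icc_right (le_max_right _ _)
      · intro z hz
        have hz' : ‖z‖ < 1 := by rwa [mem_ball_zero_iff] at hz
        have h1 := B5_ae T (hL.ode _ (hVball z hz))
        have h2 : ∀ᵐ t : ℝ, t ≠ T := by
          have : ∀ᵐ t : ℝ, t ∉ ({T} : Set ℝ) := measure_eq_zero_iff_ae_notMem.1 (measure_singleton T)
          simpa using this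
        filter_upwards [h1, h2] with t ht htT ht0
        rcases lt_or_gt_of_ne htT with hlt | hgt
        · simp only [if_pos hlt.le, if_pos hlt]
          have h3 := (hB2 E ε u z hu hz').2 t ht0
          refine h3.congr_of_eventuallyEq ?_
          filter_upwards [Iio_mem_nhds hlt] with s hs
          rw [if_pos (le_of_lt hs)]
        · simp only [if_neg (not_le.2 hgt), if_neg (not_lt.2 hgt.le)]
          have h3 := ht (by linarith)
          have h4 : HasDerivAt (fun s : ℝ => v (VV ε u q z) (s - T))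
              (-(h (v (VV ε u q z) (t - T)) (t - T))) t := by
            simpa using h3.comp_sub_const t T
          refine h4.congr_of_eventuallyEq ?_
          filter_upwards [Ioi_mem_nhds hgt] with s hs
          rw [if_neg (not_le.2 hs)]
    · -- the limit
      rw [Metric.tendstoLocallyUniformlyOn_iff] at hlim ⊢
      intro δ hδ x hx
      obtain ⟨s, hs, hev⟩ := hlim (δ * q) (mul_pos hδ hq) (VV ε u q x) (hVball x hx)
      refine ⟨(VV ε u q) ⁻¹' s, ?_, ?_⟩
      · have hc : Tendsto (VV ε u q) (𝓝[ball 0 1] x) (𝓝[ball 0 1] (VV ε u q x)) :=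
          tendsto_nhdsWithin_iff.2 ⟨(hVan x hx).continuousAt.continuousWithinAt,
            eventually_nhdsWithin_of_forall hVball⟩
        exact hc hs
      · have hsh : Tendsto (fun t : ℝ => t - T) atTop atTop := tendsto_atTop_add_const_right _ _ tendsto_id
        filter_upwards [hsh.eventually hev, eventually_gt_atTop T] with t ht htT y hy
        simp only [if_neg (not_le.2 htT)]
        have h1 := ht (VV ε u q y) hy
        rw [B5_exp] at h1 ⊢
        have hq0 : (q : ℂ) ≠ 0 := by exact_mod_cast hq.ne'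
        have h2 : (Real.exp t : ℂ) • v (VV ε u q y) (t - T) =
            (q : ℂ)⁻¹ • ((Real.exp (t - T) : ℂ) • v (VV ε u q y) (t - T)) := by
          rw [smul_smul]
          congr 1
          rw [Real.exp_sub, ← hqT, Real.exp_neg]
          push_cast
          field_simp
        rw [h2, dist_eq_norm, ← smul_sub, norm_smul, norm_inv, Complex.norm_real,
          Real.norm_of_nonneg hq.le, ← dist_eq_norm]
        rw [inv_mul_lt_iff₀ hq]
        linarith [mul_comm δ q]

end BB
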